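import Mathlib

namespace Pool.Agent.Q128.TR

open Set Filter Topology intervalIntegral MeasureTheory

theorem twopi_pos : (0 : ℝ) < 2 * Real.pi := by positivity

/-- splitting `[0, 2π]` in `R` equal intervals -/
theorem split_sum {F : ℝ → ℝ} (hF : Continuous F) {R : ℕ} (hR : 0 < R) :
    ∫ t in (0 : ℝ)..(2 * Real.pi), F t =
      ∑ j ∈ Finset.range R, ∫ t in (2 * Real.pi * j / R)..(2 * Real.pi * (j + 1 : ℕ) / R), F t := by
  have h := intervalIntegral.sum_integral_adjacent_intervals (f := F) (μ := volume)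
    (a := fun j : ℕ => 2 * Real.pi * j / R) (n := R) (fun k _ => hF.intervalIntegrable _ _)
  rw [h]
  have hR' : (R : ℝ) ≠ 0 := by exact_mod_cast hR.ne'
  congr 1
  · simp
  · field_simp

theorem avg_eq {g H : ℝ → ℝ} (hg : Continuous g) (hH : Continuous H)
    (hHp : ∀ t, H (t + 2 * Real.pi) = H t) {R : ℕ} (hR : 0 < R) :
    ∫ t in (0 : ℝ)..(2 * Real.pi), g t * H (R * t) =
      ∫ x in (0 : ℝ)..(2 * Real.pi), ((1 / (R : ℝ)) * ∑ j ∈ Finset.range R, g (x / R + 2 * Real.pi * j / R)) * H x := by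
  have hR' : (R : ℝ) ≠ 0 := by exact_mod_cast hR.ne'
  have hHj : ∀ (j : ℕ) (t : ℝ), H (t + 2 * Real.pi * j) = H t := by
    intro j
    induction j with
    | zero => intro t; simp
    | succ j ih =>
      intro t
      have : t + 2 * Real.pi * ((j + 1 : ℕ) : ℝ) = (t + 2 * Real.pi * j) + 2 * Real.pi := by
        push_cast; ring
      rw [this, hHp, ih]
  have hc : Continuous (fun t : ℝ => g t * H (R * t)) := by fun_prop
  rw [split_sum hc hR]
  have h1 : ∀ j ∈ Finset.range R, ∫ t in (2 * Real.pi * j / R)..(2 * Real.pi * (j + 1 : ℕ) / R), g t * H (R * t) =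
      (1 / (R : ℝ)) * ∫ x in (0 : ℝ)..(2 * Real.pi), g (x / R + 2 * Real.pi * j / R) * H x := by
    intro j _
    have h2 := intervalIntegral.integral_comp_div_add (a := 0) (b := 2 * Real.pi)
      (fun t : ℝ => g t * H (R * t)) hR' (2 * Real.pi * j / R)
    have h3 : ∀ x : ℝ, g (x / R + 2 * Real.pi * j / R) * H (R * (x / R + 2 * Real.pi * j / R)) =
        g (x / R + 2 * Real.pi * j / R) * H x := by
      intro x
      have : (R : ℝ) * (x / R + 2 * Real.pi * j / R) = x + 2 * Real.pi * j := by field_simp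
      rw [this, hHj]
    simp only [h3] at h2
    rw [h2, smul_eq_mul]
    have e1 : (0 : ℝ) / R + 2 * Real.pi * j / R = 2 * Real.pi * j / R := by simp
    have e2 : 2 * Real.pi / R + 2 * Real.pi * j / R = 2 * Real.pi * (j + 1 : ℕ) / R := by
      push_cast; field_simp
      ring
    rw [e1, e2]
    field_simp
  rw [Finset.sum_congr rfl h1, ← Finset.mul_sum, ← intervalIntegral.integral_finsetSum]
  · rw [← intervalIntegral.integral_const_mul]
    congr 1
    ext x
    rw [← Finset.sum_mul]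
    ring
  · intro j _
    apply Continuous.intervalIntegrable
    fun_prop

/-- Riemann sums -/
theorem riemann {g : ℝ → ℝ} (hg : Continuous g) (ε : ℝ) (hε : 0 < ε) :
    ∃ R0 : ℕ, 0 < R0 ∧ ∀ R : ℕ, R0 ≤ R → ∀ x ∈ Icc (0 : ℝ) (2 * Real.pi),
      |(1 / (R : ℝ)) * ∑ j ∈ Finset.range R, g (x / R + 2 * Real.pi * j / R) -
        (∫ t in (0 : ℝ)..(2 * Real.pi), g t) / (2 * Real.pi)| ≤ ε := by
  have huc := isCompact_Icc.uniformContinuousOn_of_continuous (s := Icc (0 : ℝ) (2 * Real.pi)) hg.continuousOn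
  rw [Metric.uniformContinuousOn_iff] at huc
  obtain ⟨δ, hδ, huc⟩ := huc ε hε
  obtain ⟨R0, hR0⟩ := exists_nat_gt (2 * Real.pi / δ)
  have hpi := twopi_pos
  have hR0pos : 0 < R0 := by
    have : (0 : ℝ) < R0 := lt_trans (by positivity) hR0
    exact_mod_cast this
  refine ⟨R0, hR0pos, fun R hR x hx => ?_⟩
  have hRpos : 0 < R := lt_of_lt_of_le hR0pos hR
  have hRr : (0 : ℝ) < R := by exact_mod_cast hRpos
  have hRδ : 2 * Real.pi / R < δ := by
    rw [div_lt_iff₀ hRr]
    rw [div_lt_iff₀ hδ] at hR0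
    have : (R0 : ℝ) ≤ R := by exact_mod_cast hR
    nlinarith
  rw [split_sum hg hRpos, Finset.sum_div, Finset.mul_sum, ← Finset.sum_sub_distrib]
  have hterm : ∀ j ∈ Finset.range R, |1 / (R : ℝ) * g (x / R + 2 * Real.pi * j / R) -
      (∫ t in (2 * Real.pi * j / R)..(2 * Real.pi * (j + 1 : ℕ) / R), g t) / (2 * Real.pi)| ≤ ε / R := by
    intro j hj
    have hjR : (j : ℝ) + 1 ≤ R := by
      have := Finset.mem_range.mp hj
      exact_mod_cast this
    have hj0 : (0 : ℝ) ≤ j := by positivity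
    have hlen : 2 * Real.pi * (j + 1 : ℕ) / R - 2 * Real.pi * j / R = 2 * Real.pi / R := by
      push_cast; field_simp; ring
    have hle : 2 * Real.pi * j / R ≤ 2 * Real.pi * (j + 1 : ℕ) / R := by
      have : 0 < 2 * Real.pi / R := by positivity
      linarith
    have e1 : 1 / (R : ℝ) * g (x / R + 2 * Real.pi * j / R) -
        (∫ t in (2 * Real.pi * j / R)..(2 * Real.pi * (j + 1 : ℕ) / R), g t) / (2 * Real.pi) =
        (∫ t in (2 * Real.pi * j / R)..(2 * Real.pi * (j + 1 : ℕ) / R),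
          (g (x / R + 2 * Real.pi * j / R) - g t)) / (2 * Real.pi) := by
      rw [intervalIntegral.integral_sub (by simp) (hg.intervalIntegrable _ _), intervalIntegral.integral_const,
        hlen, smul_eq_mul]
      field_simp
    rw [e1, abs_div, abs_of_pos hpi]
    have hb : ‖∫ t in (2 * Real.pi * j / R)..(2 * Real.pi * (j + 1 : ℕ) / R),
          (g (x / R + 2 * Real.pi * j / R) - g t)‖ ≤ ε * |2 * Real.pi * (j + 1 : ℕ) / R - 2 * Real.pi * j / R| := by
      apply intervalIntegral.norm_integral_le_of_norm_le_const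
      intro t ht
      rw [uIoc_of_le hle] at ht
      have ht0 : 0 ≤ t := by
        have : 0 ≤ 2 * Real.pi * j / R := by positivity
        linarith [ht.1]
      have ht1 : t ≤ 2 * Real.pi := by
        have : 2 * Real.pi * (j + 1 : ℕ) / R ≤ 2 * Real.pi := by
          rw [div_le_iff₀ hRr]; push_cast
          nlinarith
        linarith [ht.2]
      have hx0 : 0 ≤ x / R := div_nonneg hx.1 hRr.le
      have hx1 : x / R ≤ 2 * Real.pi / R := div_le_div_of_nonneg_right hx.2 hRr.le
      have hpj : 2 * Real.pi * (j + 1 : ℕ) / R = 2 * Real.pi * j / R + 2 * Real.pi / R := by linarith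
      have hp0 : 0 ≤ x / R + 2 * Real.pi * j / R := by positivity
      have hp1 : x / R + 2 * Real.pi * j / R ≤ 2 * Real.pi := by
        have : 2 * Real.pi * (j + 1 : ℕ) / R ≤ 2 * Real.pi := by
          rw [div_le_iff₀ hRr]; push_cast
          nlinarith
        linarith
      have hd := huc (x / R + 2 * Real.pi * j / R) ⟨hp0, hp1⟩ t ⟨ht0, ht1⟩ (by
        rw [Real.dist_eq, abs_lt]
        constructor
        · linarith [ht.2]
        · linarith [ht.1])
      rw [Real.dist_eq] at hd
      exact hd.le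
    rw [hlen, Real.norm_eq_abs, abs_of_pos (show (0 : ℝ) < 2 * Real.pi / R by positivity)] at hb
    rw [div_le_iff₀ hpi]
    refine hb.trans (le_of_eq ?_)
    ring
  calc |∑ j ∈ Finset.range R, (1 / (R : ℝ) * g (x / R + 2 * Real.pi * j / R) -
      (∫ t in (2 * Real.pi * j / R)..(2 * Real.pi * (j + 1 : ℕ) / R), g t) / (2 * Real.pi))|
      ≤ ∑ j ∈ Finset.range R, |1 / (R : ℝ) * g (x / R + 2 * Real.pi * j / R) -
      (∫ t in (2 * Real.pi * j / R)..(2 * Real.pi * (j + 1 : ℕ) / R), g t) / (2 * Real.pi)| :=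
        Finset.abs_sum_le_sum_abs _ _
    _ ≤ ∑ j ∈ Finset.range R, ε / R := Finset.sum_le_sum hterm
    _ = ε := by
        rw [Finset.sum_const, Finset.card_range, nsmul_eq_mul]; field_simp

/-- the product function -/
noncomputable def pf (g : ℝ → ℝ) (R d : ℕ) (t : ℝ) : ℝ := ∏ k ∈ Finset.range d, g ((R : ℝ) ^ k * t)

theorem pf_succ (g : ℝ → ℝ) (R d : ℕ) (t : ℝ) : pf g R (d + 1) t = g t * pf g R d (R * t) := by
  unfold pf
  rw [Finset.prod_range_succ']
  simp only [pow_zero, one_mul]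
  rw [mul_comm]
  congr 1
  apply Finset.prod_congr rfl
  intro k _
  congr 1
  rw [pow_succ]; ring

theorem pf_cont {g : ℝ → ℝ} (hg : Continuous g) (R d : ℕ) : Continuous (pf g R d) := by
  unfold pf
  apply continuous_finsetProd
  intro k _
  fun_prop

theorem pf_nonneg {g : ℝ → ℝ} (hg : ∀ t, 0 ≤ g t) (R d : ℕ) (t : ℝ) : 0 ≤ pf g R d t :=
  Finset.prod_nonneg fun _ _ => hg _

theorem pf_periodic {g : ℝ → ℝ} (hg : ∀ t, g (t + 2 * Real.pi) = g t) (R d : ℕ) (t : ℝ) :
    pf g R d (t + 2 * Real.pi) = pf g R d t := by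
  have h1 : ∀ (n : ℕ) (t : ℝ), g (t + n * (2 * Real.pi)) = g t := by
    intro n
    induction n with
    | zero => intro t; simp
    | succ n ih =>
      intro t
      have : t + ((n + 1 : ℕ) : ℝ) * (2 * Real.pi) = (t + n * (2 * Real.pi)) + 2 * Real.pi := by
        push_cast; ring
      rw [this, hg, ih]
  unfold pf
  apply Finset.prod_congr rfl
  intro k _
  have : (R : ℝ) ^ k * (t + 2 * Real.pi) = (R : ℝ) ^ k * t + ((R ^ k : ℕ) : ℝ) * (2 * Real.pi) := by
    push_cast; ring
  rw [this, h1]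

/-- the mixing estimate -/
theorem mixing {g : ℝ → ℝ} (hg : Continuous g) (hg0 : ∀ t, 0 ≤ g t) (hgp : ∀ t, g (t + 2 * Real.pi) = g t)
    (ε : ℝ) (hε : 0 < ε) :
    ∃ R0 : ℕ, 0 < R0 ∧ ∀ R : ℕ, R0 ≤ R → ∀ d : ℕ,
      (ε ≤ (∫ t in (0 : ℝ)..(2 * Real.pi), g t) / (2 * Real.pi) →
      2 * Real.pi * ((∫ t in (0 : ℝ)..(2 * Real.pi), g t) / (2 * Real.pi) - ε) ^ d ≤
        ∫ t in (0 : ℝ)..(2 * Real.pi), pf g R d t) ∧
      ∫ t in (0 : ℝ)..(2 * Real.pi), pf g R d t ≤
        2 * Real.pi * ((∫ t in (0 : ℝ)..(2 * Real.pi), g t) / (2 * Real.pi) + ε) ^ d := by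
  obtain ⟨R0, hR0, hmain⟩ := riemann hg ε hε
  refine ⟨R0, hR0, fun R hR => ?_⟩
  have hRpos : 0 < R := lt_of_lt_of_le hR0 hR
  have hμ0 : 0 ≤ (∫ t in (0 : ℝ)..(2 * Real.pi), g t) / (2 * Real.pi) :=
    div_nonneg (intervalIntegral.integral_nonneg twopi_pos.le fun t _ => hg0 t) twopi_pos.le
  set μ := (∫ t in (0 : ℝ)..(2 * Real.pi), g t) / (2 * Real.pi) with hμdef
  intro d
  induction d with
  | zero => simp [pf]
  | succ d ih =>
    have h1 : ∫ t in (0 : ℝ)..(2 * Real.pi), pf g R (d + 1) t =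
        ∫ x in (0 : ℝ)..(2 * Real.pi), ((1 / (R : ℝ)) * ∑ j ∈ Finset.range R, g (x / R + 2 * Real.pi * j / R)) *
          pf g R d x := by
      rw [← avg_eq hg (pf_cont hg R d) (pf_periodic hgp R d) hRpos]
      congr 1
      ext t
      exact pf_succ g R d t
    have hcA : Continuous (fun x : ℝ => (1 / (R : ℝ)) * ∑ j ∈ Finset.range R, g (x / R + 2 * Real.pi * j / R)) := by
      apply Continuous.mul continuous_const
      apply continuous_finsetSum
      intro j _
      fun_prop
    have hcP := pf_cont hg R d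
    rw [h1]
    constructor
    · intro hμ
      calc 2 * Real.pi * (μ - ε) ^ (d + 1) = (μ - ε) * (2 * Real.pi * (μ - ε) ^ d) := by ring
        _ ≤ (μ - ε) * ∫ t in (0 : ℝ)..(2 * Real.pi), pf g R d t :=
            mul_le_mul_of_nonneg_left (ih.1 hμ) (by linarith)
        _ = ∫ t in (0 : ℝ)..(2 * Real.pi), (μ - ε) * pf g R d t := by
            rw [intervalIntegral.integral_const_mul]
        _ ≤ _ := by
            apply intervalIntegral.integral_mono_on twopi_pos.le
            · apply Continuous.intervalIntegrable; fun_prop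
            · exact (hcA.mul hcP).intervalIntegrable _ _
            · intro x hx
              apply mul_le_mul_of_nonneg_right _ (pf_nonneg hg0 R d x)
              have := (abs_le.mp (hmain R hR x hx)).1
              linarith
    · calc _ ≤ ∫ t in (0 : ℝ)..(2 * Real.pi), (μ + ε) * pf g R d t := by
            apply intervalIntegral.integral_mono_on twopi_pos.le
            · exact (hcA.mul hcP).intervalIntegrable _ _
            · apply Continuous.intervalIntegrable; fun_prop
            · intro x hx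
              apply mul_le_mul_of_nonneg_right _ (pf_nonneg hg0 R d x)
              have := (abs_le.mp (hmain R hR x hx)).2
              linarith
        _ = (μ + ε) * ∫ t in (0 : ℝ)..(2 * Real.pi), pf g R d t := by
            rw [intervalIntegral.integral_const_mul]
        _ ≤ (μ + ε) * (2 * Real.pi * (μ + ε) ^ d) := mul_le_mul_of_nonneg_left ih.2 (by linarith)
        _ = 2 * Real.pi * (μ + ε) ^ (d + 1) := by ring

/-- the strict inequality of the means -/
theorem mean_lt {q A c : ℝ} (hq0 : 0 < q) (hq1 : q < 1) (hA : A ≠ 0) (hA4 : |A| ≤ 4) :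
    ∫ t in (0 : ℝ)..(2 * Real.pi), (3 + A * Real.cos (t + c) + 2 * Real.cos (2 * (t + c))) ^ q <
      ∫ t in (0 : ℝ)..(2 * Real.pi), (3 - 2 * Real.cos (2 * t)) ^ q := by
  have hrc : Continuous (fun x : ℝ => x ^ q) := Real.continuous_rpow_const hq0.le
  -- the function G
  set G : ℝ → ℝ := fun t => (3 + A * Real.cos t + 2 * Real.cos (2 * t)) ^ q with hG
  have hGc : Continuous G := hrc.comp (by fun_prop)
  have hGper : Function.Periodic G (2 * Real.pi) := by
    intro t
    rw [hG]
    simp only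
    rw [Real.cos_add_two_pi, show 2 * (t + 2 * Real.pi) = 2 * t + 2 * Real.pi + 2 * Real.pi by ring,
      Real.cos_add_two_pi, Real.cos_add_two_pi]
  have hbase : ∀ t : ℝ, 0 ≤ 3 + A * Real.cos t + 2 * Real.cos (2 * t) := by
    intro t
    rw [Real.cos_two_mul]
    have hA' := abs_le.mp hA4
    have hA2 : A ^ 2 ≤ 16 := by nlinarith
    nlinarith [sq_nonneg (8 * Real.cos t + A)]
  -- shift by c
  have h1 : ∫ t in (0 : ℝ)..(2 * Real.pi), (3 + A * Real.cos (t + c) + 2 * Real.cos (2 * (t + c))) ^ q =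
      ∫ t in (0 : ℝ)..(2 * Real.pi), G t := by
    have e1 : ∫ t in (0 : ℝ)..(2 * Real.pi), G (t + c) = ∫ t in (0 + c)..(2 * Real.pi + c), G t :=
      intervalIntegral.integral_comp_add_right G c
    have e2 := hGper.intervalIntegral_add_eq (t := 0 + c) (s := 0)
    rw [show 0 + c + 2 * Real.pi = 2 * Real.pi + c by ring, zero_add (2 * Real.pi)] at e2
    exact e1.trans e2
  have h2 : ∫ t in (0 : ℝ)..(2 * Real.pi), G (t + Real.pi) = ∫ t in (0 : ℝ)..(2 * Real.pi), G t := by
    have e1 : ∫ t in (0 : ℝ)..(2 * Real.pi), G (t + Real.pi) =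
        ∫ t in (0 + Real.pi)..(2 * Real.pi + Real.pi), G t :=
      intervalIntegral.integral_comp_add_right G Real.pi
    have e2 := hGper.intervalIntegral_add_eq (t := 0 + Real.pi) (s := 0)
    rw [show 0 + Real.pi + 2 * Real.pi = 2 * Real.pi + Real.pi by ring, zero_add (2 * Real.pi)] at e2
    exact e1.trans e2
  -- the function X
  set K : ℝ → ℝ := fun t => (3 - 2 * Real.cos (2 * t)) ^ q with hK
  have hKc : Continuous K := hrc.comp (by fun_prop)
  have hKper : Function.Periodic K (2 * Real.pi) := by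
    intro t
    rw [hK]
    simp only
    rw [show 2 * (t + 2 * Real.pi) = 2 * t + 2 * Real.pi + 2 * Real.pi by ring,
      Real.cos_add_two_pi, Real.cos_add_two_pi]
  have h3 : ∫ t in (0 : ℝ)..(2 * Real.pi), (3 + 2 * Real.cos (2 * t)) ^ q =
      ∫ t in (0 : ℝ)..(2 * Real.pi), K t := by
    have e0 : ∀ t : ℝ, (3 + 2 * Real.cos (2 * t)) ^ q = K (t + Real.pi / 2) := by
      intro t
      rw [hK]
      simp only
      rw [show 2 * (t + Real.pi / 2) = 2 * t + Real.pi by ring, Real.cos_add_pi]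
      congr 1; ring
    simp only [e0]
    have e1 : ∫ t in (0 : ℝ)..(2 * Real.pi), K (t + Real.pi / 2) =
        ∫ t in (0 + Real.pi / 2)..(2 * Real.pi + Real.pi / 2), K t :=
      intervalIntegral.integral_comp_add_right K (Real.pi / 2)
    have e2 := hKper.intervalIntegral_add_eq (t := 0 + Real.pi / 2) (s := 0)
    rw [show 0 + Real.pi / 2 + 2 * Real.pi = 2 * Real.pi + Real.pi / 2 by ring, zero_add (2 * Real.pi)] at e2
    exact e1.trans e2
  have hXc : Continuous (fun t : ℝ => (3 + 2 * Real.cos (2 * t)) ^ q) := hrc.comp (by fun_prop)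
  have hsc := Real.strictConcaveOn_rpow hq0 hq1
  have hGpi : ∀ t, G (t + Real.pi) = (3 - A * Real.cos t + 2 * Real.cos (2 * t)) ^ q := by
    intro t
    rw [hG]
    simp only
    rw [Real.cos_add_pi, show 2 * (t + Real.pi) = 2 * t + 2 * Real.pi by ring, Real.cos_add_two_pi]
    congr 1; ring
  have hbase' : ∀ t : ℝ, 0 ≤ 3 - A * Real.cos t + 2 * Real.cos (2 * t) := by
    intro t
    have := hbase (t + Real.pi)
    rw [Real.cos_add_pi, show 2 * (t + Real.pi) = 2 * t + 2 * Real.pi by ring, Real.cos_add_two_pi] at this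
    linarith
  have hlt : ∫ t in (0 : ℝ)..(2 * Real.pi), (G t + G (t + Real.pi)) / 2 <
      ∫ t in (0 : ℝ)..(2 * Real.pi), (3 + 2 * Real.cos (2 * t)) ^ q := by
    apply intervalIntegral.integral_lt_integral_of_continuousOn_of_le_of_exists_lt twopi_pos
    · apply Continuous.continuousOn
      have : Continuous (fun t : ℝ => G (t + Real.pi)) := hGc.comp (by fun_prop)
      fun_prop
    · exact hXc.continuousOn
    · intro t _
      rw [hGpi]
      have e := hsc.concaveOn.2 (hbase t) (hbase' t) (show (0 : ℝ) ≤ 1 / 2 by norm_num)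
        (show (0 : ℝ) ≤ 1 / 2 by norm_num) (by norm_num)
      simp only [smul_eq_mul] at e
      have e' : 1 / 2 * (3 + A * Real.cos t + 2 * Real.cos (2 * t)) +
        1 / 2 * (3 - A * Real.cos t + 2 * Real.cos (2 * t)) = 3 + 2 * Real.cos (2 * t) := by ring
      rw [e'] at e
      rw [hG]
      simp only
      linarith
    · refine ⟨0, ⟨le_rfl, twopi_pos.le⟩, ?_⟩
      rw [hGpi]
      have hne : (3 + A * Real.cos 0 + 2 * Real.cos (2 * 0)) ≠ 3 - A * Real.cos 0 + 2 * Real.cos (2 * 0) := by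
        rw [Real.cos_zero]
        intro h
        apply hA
        linarith
      have e := hsc.2 (hbase 0) (hbase' 0) hne (show (0 : ℝ) < 1 / 2 by norm_num)
        (show (0 : ℝ) < 1 / 2 by norm_num) (by norm_num)
      simp only [smul_eq_mul] at e
      have e' : 1 / 2 * (3 + A * Real.cos 0 + 2 * Real.cos (2 * 0)) +
        1 / 2 * (3 - A * Real.cos 0 + 2 * Real.cos (2 * 0)) = 3 + 2 * Real.cos (2 * 0) := by ring
      rw [e'] at e
      rw [hG]
      simp only
      linarith
  have hsum : ∫ t in (0 : ℝ)..(2 * Real.pi), (G t + G (t + Real.pi)) / 2 =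
      ∫ t in (0 : ℝ)..(2 * Real.pi), G t := by
    have hGpc : Continuous (fun t : ℝ => G (t + Real.pi)) := hGc.comp (by fun_prop)
    rw [intervalIntegral.integral_div, intervalIntegral.integral_add (hGc.intervalIntegrable _ _)
      (hGpc.intervalIntegrable _ _), h2]
    ring
  rw [h1, ← hsum]
  exact lt_of_lt_of_eq hlt h3

end Pool.Agent.Q128.TR
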